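import Pool.Agent.Results.MP_3da4c4_nt.OddMoments

/-!
# The distribution functions of the coefficients of the twists of hyperelliptic curves

`F` is a number field (`ℚ` in the problem), `f ∈ 𝓞_F[x]` and `C_d`, `d ∈ 𝓞_F` nonzero, is the smooth
projective curve `d y² = f(x)`.  If `C = C_1` is generic, so are all its twists `C_d`, and for odd `k`
the Sato-Tate conjecture says that the coefficients `a_k` of the normalised `L`-polynomials of `C_d`
have the same distribution for all `d`, which is symmetric.  We show that for all `d` of a finite set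
`T` of elements in different classes modulo squares, with at most `32 m³` exceptions, the empirical
distribution function of `a_k` for `C_d` differs from the symmetrised one for `C` by less than `1 / m`
everywhere, at every large scale, uniformly in `f` and `k`.  (For even `k` the coefficients of `C_d`
and `C` agree.)
-/

set_option autoImplicit false

namespace Pool.Agent.Results.MP_3da4c4_nt.ExceptionalTwists

open NumberField IsDedekindDomain Filter Topology Polynomial
open Pool.Agent.Results.MP_3da4c4_nt.OddMoments (a)

section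
variable {F : Type} [Field F] [NumberField F]

open Classical in
/-- The proportion of the primes `v` with the property `P` among the primes of norm at most `N`. -/
noncomputable def proportion (P : HeightOneSpectrum (𝓞 F) → Prop) (N : ℕ) : ℝ :=
  (∑ᶠ v : {v : HeightOneSpectrum (𝓞 F) // Ideal.absNorm v.asIdeal ≤ N}, if P v.1 then 1 else 0) /
    (Nat.card {v : HeightOneSpectrum (𝓞 F) // Ideal.absNorm v.asIdeal ≤ N} : ℝ)

end

/-- **Few exceptional twists.** Let `T` be a finite set of nonzero elements of `𝓞_F` in different
classes modulo squares of `F`, and `m ≥ 1`. For all large `N`, for all `f ∈ 𝓞_F[x]` and all odd `k`,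
there are at most `32 m³` elements `d ∈ T` such that the empirical distribution function
`x ↦ #{v : a_{k,v}(C_d) ≤ x} / #{v}` of the primes of norm at most `N` differs by at least `1 / m`, for
some real `x`, from the symmetrised empirical distribution function of `a_k` for `C`, which is
`x ↦ (#{v : a_{k,v}(C) ≤ x} + #{v : -a_{k,v}(C) ≤ x}) / (2 #{v})`. -/
theorem result {F : Type} [Field F] [NumberField F] (T : Finset (𝓞 F)) (hT : ∀ d ∈ T, d ≠ 0)
    (hT' : ∀ d ∈ T, ∀ d' ∈ T, d ≠ d' → ¬ IsSquare ((d * d' : 𝓞 F) : F)) (m : ℕ) (hm : 1 ≤ m) :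
    ∀ᶠ N : ℕ in atTop, ∀ (f : (𝓞 F)[X]) (k : ℕ), Odd k →
      {d | d ∈ T ∧ ∃ x : ℝ, 1 / (m : ℝ) ≤ |proportion (fun v => a f d k v ≤ x) N -
        (proportion (fun v => a f 1 k v ≤ x) N + proportion (fun v => -a f 1 k v ≤ x) N) / 2|}.ncard ≤
        32 * m ^ 3 := by
  classical
  filter_upwards [Pool.Agent.W529.ST.count_levels T hT hT' (Z := ∅) Set.finite_empty m hm] with N hN
  intro f k hk
  have h1 := hN (fun v => a f 1 k v) (fun d v => a f d k v) (by
    intro d _ v _ h2d
    rw [Pool.Agent.Results.MP_3da4c4_nt.OddMoments.a_twist f k h2d]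
    congr 1
    rcases Pool.Agent.W529.ST.ch_dichotomy d h2d with ⟨_, h⟩ | ⟨_, h⟩
    · rw [h, one_pow]
    · rw [h, hk.neg_one_pow])
  refine le_trans (le_of_eq ?_) h1
  rw [← Set.ncard_coe_finset]
  congr 1
  ext d
  simp only [Set.mem_setOf_eq, Finset.coe_filter]
  refine and_congr_right fun _ => exists_congr fun x => ?_
  obtain ⟨t, _, _, hmean⟩ := Pool.Agent.W529.ST.mean_def (F := F) (fun _ => 0) N
  have e1 : ∀ P : HeightOneSpectrum (𝓞 F) → Prop, proportion P N =
      Pool.Agent.W529.ST.mean F (fun v => if P v then 1 else 0) N := fun P => rfl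
  rw [e1, e1, e1]
  have e2 : Pool.Agent.W529.ST.mean F
      (fun v => ((if a f 1 k v ≤ x then 1 else 0) + (if -a f 1 k v ≤ x then 1 else 0)) / 2) N =
      (Pool.Agent.W529.ST.mean F (fun v => if a f 1 k v ≤ x then 1 else 0) N +
        Pool.Agent.W529.ST.mean F (fun v => if -a f 1 k v ≤ x then 1 else 0) N) / 2 := by
    simp only [hmean]
    rw [← Finset.sum_div, Finset.sum_add_distrib]
    ring
  rw [e2]

end Pool.Agent.Results.MP_3da4c4_nt.ExceptionalTwists
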