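import Pool.Agent.V1142.EQ.Mom

/-!
# The moments over `ℚ` and the moments over linearly disjoint number fields

`x_v` is a bounded sequence of real numbers, indexed by the places `v` of `ℚ`, that is by the primes
`p = N(v)` (for the problem: `x_v = a_{k,p}`, a coefficient of the normalised `L`-polynomial of a curve `C` of
genus `g` over `ℚ`, with `|a_{k,p}| ≤ M`, `M` the binomial coefficient; any such number at the bad primes), and
`c m` are real numbers (for the problem: the moments `c_k(m; g)` of `USp(2g)`).  `K_0, K_1, ...` are number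
fields different from `ℚ`, inside the algebraic closure of `ℚ`, with `[K_i K_j : ℚ] = [K_i : ℚ] [K_j : ℚ]` for
`i ≠ j`.  They need not be Galois, and their degrees need not be bounded.

The prime `p` has as many prime ideals of degree one in `K` as there are embeddings of `K` which are fixed
by a Frobenius element `φ_p`, if `p` is unramified in `K`, and the prime ideals of `K` of higher degree have
density zero.  So `avgOver φ K (x ^ m) N` is, up to `o(1)`, the `m`-th moment for the base change of `C` to `K`
at the scale `N`, which is a generic curve over `K` if `C` is generic.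

`rankOf K` is the number of orbits of the absolute Galois group on the pairs of embeddings of `K`, at least
`2` for `K ≠ ℚ` and at most `[K : ℚ]`; it is `2` for quadratic fields and for all fields of degree `n` whose
Galois group is the symmetric group on `n` letters.
-/

set_option autoImplicit false

namespace Pool.Agent.Results.MP_3da4c4_nt.MomentsOverFields

open NumberField IsDedekindDomain Filter Topology
open Pool.Agent.V1142.EQ (fixedEmbeddings rankOf avg avgOver)

/-- The places of `ℚ`. -/
abbrev Place : Type := HeightOneSpectrum (𝓞 ℚ)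

/-- `σ` is a Frobenius element at `v`: for some maximal ideal `Q` above `v` of the ring of all algebraic
integers, `σ x ≡ x ^ N(v)` modulo `Q` for all `x`. -/
def IsFrobenius (v : Place) (σ : Gal(AlgebraicClosure ℚ/ℚ)) : Prop :=
  ∃ Q : Ideal (𝓞 (AlgebraicClosure ℚ)), Q.IsMaximal ∧
    Q.comap (algebraMap (𝓞 ℚ) (𝓞 (AlgebraicClosure ℚ))) = v.asIdeal ∧
    ∀ x : 𝓞 (AlgebraicClosure ℚ), σ • x - x ^ Ideal.absNorm v.asIdeal ∈ Q

/-- The moment problem over `ℚ`: for all `m` the average of `x ^ m` over the primes `p ≤ N` tends to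
`c m`. -/
def Moments (x : Place → ℝ) (c : ℕ → ℝ) : Prop :=
  ∀ m : ℕ, Tendsto (avg fun v => x v ^ m) atTop (𝓝 (c m))

/-- The moment problem over `K`: the same with each prime counted with the number of the embeddings of `K`
fixed by its Frobenius element (the number of its prime ideals of degree one in `K`). -/
def MomentsOver (φ : Place → Gal(AlgebraicClosure ℚ/ℚ))
    (K : IntermediateField ℚ (AlgebraicClosure ℚ)) (x : Place → ℝ) (c : ℕ → ℝ) : Prop :=
  ∀ m : ℕ, Tendsto (avgOver φ K fun v => x v ^ m) atTop (𝓝 (c m))

/-- The moment problem on average over the `K i`: for all `m` and `δ > 0`, for all large `k`, for all large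
`N` (depending on `k`), the mean over `i < k`, with the weights `1 / (rankOf (K i) - 1)`, of the distance of
the average of `x ^ m` over `K i` at the scale `N` from `c m` is at most `δ`. -/
def MomentsOnAverage (φ : Place → Gal(AlgebraicClosure ℚ/ℚ))
    (K : ℕ → IntermediateField ℚ (AlgebraicClosure ℚ)) (x : Place → ℝ) (c : ℕ → ℝ) : Prop :=
  ∀ m : ℕ, ∀ δ : ℝ, 0 < δ → ∀ᶠ k in atTop, ∀ᶠ N in atTop,
    (∑ i ∈ Finset.range k, 1 / ((rankOf (K i) : ℝ) - 1) *
      |avgOver φ (K i) (fun v => x v ^ m) N - c m|) /
      (∑ i ∈ Finset.range k, 1 / ((rankOf (K i) : ℝ) - 1)) ≤ δ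

/-- Let `K_0, K_1, ...` be number fields, all different from `ℚ`, with
`[K_i K_j : ℚ] = [K_i : ℚ] [K_j : ℚ]` for `i ≠ j`.

1. (Unconditional.)  For each finite set `J` of indices and `ε > 0`, for all large `N`, for all `M > 0`, all
real sequences `x` with `|x| ≤ M` and all `m`: the sum over `i ∈ J` of the squares of the differences between
the `m`-th moments over `K_i` and over `ℚ` at the scale `N`, divided by `rankOf (K_i) - 1`, is at most
`(1 + ε) M ^ (2 m)`.  (`N` does not depend on the sequence, that is on the curve, and on `m`.)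

2. If infinitely many of the `rankOf (K_i)` are bounded by one number `D`, or more generally if
`∑ 1 / (rankOf (K_i) - 1)` diverges, then for each bounded real sequence `x` and all numbers `c m` the moments
over `ℚ` exist and are equal to the `c m` if and only if this holds on average over the `K_i`; in particular
it holds if the moments over all but finitely many of the `K_i` exist and are equal to the `c m`. -/
theorem result (φ : Place → Gal(AlgebraicClosure ℚ/ℚ)) (hφ : ∀ v, IsFrobenius v (φ v))
    (K : ℕ → IntermediateField ℚ (AlgebraicClosure ℚ)) (hfin : ∀ i, FiniteDimensional ℚ (K i))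
    (hne : ∀ i, K i ≠ ⊥)
    (hdisj : ∀ i j, i ≠ j →
      Module.finrank ℚ (K i ⊔ K j : IntermediateField ℚ (AlgebraicClosure ℚ)) =
        Module.finrank ℚ (K i) * Module.finrank ℚ (K j)) :
    (∀ (J : Finset ℕ) (ε : ℝ), 0 < ε → ∀ᶠ N in atTop, ∀ (x : Place → ℝ) (M : ℝ), 0 < M →
      (∀ v, |x v| ≤ M) → ∀ m : ℕ,
      ∑ i ∈ J, (avgOver φ (K i) (fun v => x v ^ m) N - avg (fun v => x v ^ m) N) ^ 2 /
        ((rankOf (K i) : ℝ) - 1) ≤ (1 + ε) * M ^ (2 * m)) ∧
    (((∃ D : ℕ, ∃ᶠ i in atTop, rankOf (K i) ≤ D) ∨
        ¬ Summable fun i => 1 / ((rankOf (K i) : ℝ) - 1)) →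
      ∀ (x : Place → ℝ) (M : ℝ), (∀ v, |x v| ≤ M) → ∀ c : ℕ → ℝ,
        (Moments x c ↔ MomentsOnAverage φ K x c) ∧
        ((∀ᶠ i in atTop, MomentsOver φ (K i) x c) → Moments x c)) := by
  refine ⟨fun J ε hε => ?_, fun h x M hM c => ?_⟩
  · exact Pool.Agent.V1142.EQ.bessel_moments φ hφ K hfin hne hdisj J ε hε
  · have hs : ¬ Summable fun i => 1 / ((rankOf (K i) : ℝ) - 1) := by
      rcases h with ⟨D, hD⟩ | h
      · exact Pool.Agent.V1142.EQ.not_summable' K hfin hne D hD
      · exact h
    have key : ∀ (m : ℕ) (v : Place), |x v ^ m| ≤ M ^ m := fun m v => by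
      rw [abs_pow]
      exact pow_le_pow_left₀ (abs_nonneg _) (hM v) m
    refine ⟨⟨fun h m => ?_, fun h m => ?_⟩, fun h m => ?_⟩
    · exact (Pool.Agent.V1142.EQ.equivalence' φ hφ K hfin hne hdisj hs _ _ (key m) _).1 (h m)
    · exact (Pool.Agent.V1142.EQ.equivalence' φ hφ K hfin hne hdisj hs _ _ (key m) _).2 (h m)
    · refine Pool.Agent.V1142.EQ.descent' φ hφ K hfin hne hdisj hs _ _ (key m) _ ?_
      filter_upwards [h] with i hi
      exact hi m

end Pool.Agent.Results.MP_3da4c4_nt.MomentsOverFields
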