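import Pool.Agent.W529.ST.Fin

/-!
# One finite extension governs the Frobenius statistics of all twists of a hyperelliptic curve

`K` is a number field (`ℚ` in the problem), `f ∈ 𝓞_K[x]` a separable polynomial of degree `2 g + 1`
and `C_d`, `d ∈ 𝓞_F` nonzero, `F` a finite extension of `K`, the smooth projective curve
`d y² = f(x)` over `F`, which has one point at infinity.  The normalised traces `s_1, ..., s_g` of the
Frobenius at a prime `w` of `F` determine the normalised `L`-polynomial of `C_d` at `w`.  If `C_1` is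
generic, so are all `C_d`, and the Sato-Tate conjecture says that the mean of each continuous function
`Φ` of `(s_1, ..., s_g)` for `C_d` tends to the same number, its mean over `USp(2g)`, for all `F` and
`d`.

We show for arbitrary bounded functions `Φ`, without any hypothesis on `f`: up to an error `1 / k`, at
infinitely many of the scales of a given infinite set, the means for all twists over all extensions
of degree at most `n` are governed by one finite Galois extension `M` of `K`, of explicitly bounded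
degree.
-/

set_option autoImplicit false

namespace Pool.Agent.Results.MP_3da4c4_nt.OneFiniteExtension

open NumberField IsDedekindDomain Filter Topology Polynomial

/-- A finite extension of the number field `K`, as a subfield of a fixed algebraic closure of `K`. -/
structure Ext (K : Type) [Field K] where
  /-- the subfield -/
  sub : IntermediateField K (AlgebraicClosure K)
  /-- it is a number field -/
  nf : NumberField sub

namespace Ext
variable {K : Type} [Field K]

/-- The underlying type of an extension. -/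
def T (F : Ext K) : Type := F.sub

noncomputable instance instField (F : Ext K) : Field F.T := F.sub.toField

instance instNumberField (F : Ext K) : NumberField F.T := F.nf

noncomputable instance instAlgebra (F : Ext K) : Algebra K F.T := F.sub.algebra'

/-- An element of `F` as an element of the algebraic closure of `K`. -/
def emb {F : Ext K} (y : F.T) : AlgebraicClosure K := Subtype.val (p := fun z => z ∈ F.sub) y

/-- An element of `𝓞 F` as an element of the algebraic closure of `K`. -/
noncomputable def val {F : Ext K} (d : 𝓞 F.T) : AlgebraicClosure K := emb (d : F.T)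

/-- `d` is not a square in the compositum `F M`. -/
def NoSquare {F : Ext K} (M : Ext K) (d : 𝓞 F.T) : Prop :=
  ∀ y ∈ F.sub ⊔ M.sub, y ^ 2 ≠ val d

/-- The twist of the base change to `F` by `d` and the twist of the base change to `F₀` by `e` are
related with respect to `M` (this is used for `F₀ = F ∩ M`): either `√e ∈ M` and `d e` is a square in
`F`, so that `F(√d) = F(√e)`, or `d` is not a square in `F M` and `e` is not a square in `M`. -/
def Related (M : Ext K) {F F₀ : Ext K} (d : 𝓞 F.T) (e : 𝓞 F₀.T) : Prop :=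
  ((∃ u ∈ F.sub, u ^ 2 = val d * val e) ∧ ∃ t ∈ M.sub, t ^ 2 = val e) ∨
    (NoSquare M d ∧ ∀ y ∈ M.sub, y ^ 2 ≠ val e)

end Ext

/-- Number of affine points of `d y² = f(x)` with coordinates in the extension of degree `m` of the
finite field `k`, that is, the field of the elements of the algebraic closure of `k` that are fixed
by the `m`-th power of the Frobenius of `k`. -/
noncomputable def affineCount (k : Type) [Field k] (f : k[X]) (d : k) (m : ℕ) : ℕ :=
  Nat.card {P : AlgebraicClosure k × AlgebraicClosure k //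
    P.1 ^ (Nat.card k ^ m) = P.1 ∧ P.2 ^ (Nat.card k ^ m) = P.2 ∧
    algebraMap k (AlgebraicClosure k) d * P.2 ^ 2 = aeval P.1 f}

/-- Trace of the `m`-th power of the Frobenius at `v` on `H¹` of the smooth projective curve
`d y² = f(x)`, `deg f` odd: it is `q^m + 1` minus the number of points over the field with `q^m`
elements, and there is one point at infinity. -/
noncomputable def traceH1 {F : Type} [Field F] [NumberField F] (v : HeightOneSpectrum (𝓞 F))
    (f : (𝓞 F)[X]) (d : 𝓞 F) (m : ℕ) : ℤ :=
  haveI : v.asIdeal.IsMaximal := v.isMaximal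
  letI : Field (𝓞 F ⧸ v.asIdeal) := Ideal.Quotient.field v.asIdeal
  (Ideal.absNorm v.asIdeal : ℤ) ^ m + 1 -
    (affineCount (𝓞 F ⧸ v.asIdeal) (f.map (Ideal.Quotient.mk v.asIdeal))
      (Ideal.Quotient.mk v.asIdeal d) m + 1)

/-- The normalised traces `s_m = Tr(Frob^m | H¹) / q^{m/2}`, `m = 1, ..., g`, of `d y² = f(x)` at
`v`. -/
noncomputable def traces {F : Type} [Field F] [NumberField F] (f : (𝓞 F)[X]) (g : ℕ) (d : 𝓞 F)
    (v : HeightOneSpectrum (𝓞 F)) (m : Fin g) : ℝ :=
  (traceH1 v f d (m + 1) : ℝ) / ((Ideal.absNorm v.asIdeal : ℕ) : ℝ) ^ (((m : ℕ) + 1 : ℝ) / 2)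

/-- The mean of `φ` over the primes of `𝓞 F` of norm at most `N`. -/
noncomputable def mean (F : Type) [Field F] [NumberField F] (φ : HeightOneSpectrum (𝓞 F) → ℝ)
    (N : ℕ) : ℝ :=
  (∑ᶠ v : {v : HeightOneSpectrum (𝓞 F) // Ideal.absNorm v.asIdeal ≤ N}, φ v.1) /
    (Nat.card {v : HeightOneSpectrum (𝓞 F) // Ideal.absNorm v.asIdeal ≤ N} : ℝ)

section
variable {K : Type} [Field K] [NumberField K]

/-- The mean of `Φ(s_1, ..., s_g)` for the curve `d y² = f(x)` over `F ⊇ K` over the primes of `F` of
norm at most `N`. -/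
noncomputable def meanOf (f : (𝓞 K)[X]) {g : ℕ} (Φ : (Fin g → ℝ) → ℝ) (F : Ext K) (d : 𝓞 F.T) :
    ℕ → ℝ :=
  mean F.T fun v => Φ (traces (f.map (algebraMap (𝓞 K) (𝓞 F.T))) g d v)

/-- `Φ` is odd: `Φ(-s_1, s_2, -s_3, ...) = -Φ(s_1, s_2, s_3, ...)`; this is `Φ(-x) = -Φ(x)` for
functions of a class `x` in `USp(2g)`. -/
def IsOdd {g : ℕ} (Φ : (Fin g → ℝ) → ℝ) : Prop :=
  ∀ s : Fin g → ℝ, Φ (fun m => (-1) ^ ((m : ℕ) + 1) * s m) = -Φ s

end

/-- **One finite extension governs.** Let `Φ` be a function of the normalised traces with values in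
`[-1, 1]`, `n ≥ 0`, `k ≥ 1` and `S` an infinite set of scales. There is a finite Galois extension `M`
of `K` of degree at most `((4 n)!) ^ (4 n k ^ 2)` such that for all extensions `F` of `K` of degree at
most `n` and all nonzero `d ∈ 𝓞 F`:

(a) if `Φ` is odd and `d` is not a square in `F M`, the absolute value of the mean of `Φ` for `C_d`
over `F` is less than `1 / k` at infinitely many scales of `S`;

(b) for all nonzero `e ∈ 𝓞 F₀`, `F₀ = F ∩ M`, related to `d`, the means of `Φ` for `C_d` over `F` and
for `C_e` over `F₀` differ by less than `1 / k` at infinitely many scales of `S`; and if the latter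
mean has a limit `c` along `S`, the former is closer than `1 / k` to `c` at infinitely many scales of
`S`, and its limit along `S`, if it exists, is closer than `1 / k` to `c`. -/
theorem result (K : Type) [Field K] [NumberField K] (f : (𝓞 K)[X]) (g : ℕ)
    (Φ : (Fin g → ℝ) → ℝ) (hΦ : ∀ s, |Φ s| ≤ 1) (n k : ℕ) (hk : 1 ≤ k) (S : Set ℕ)
    (hS : S.Infinite) :
    ∃ M : Ext K, IsGalois K M.T ∧
      Module.finrank K M.T ≤ (4 * n).factorial ^ (4 * n * k ^ 2) ∧
      (IsOdd Φ → ∀ (F : Ext K) (d : 𝓞 F.T), Module.finrank K F.T ≤ n → d ≠ 0 →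
        Ext.NoSquare M d → ∃ᶠ N in atTop ⊓ 𝓟 S, |meanOf f Φ F d N| < 1 / k) ∧
      ∀ F F₀ : Ext K, F₀.sub = F.sub ⊓ M.sub → Module.finrank K F.T ≤ n →
        ∀ (d : 𝓞 F.T) (e : 𝓞 F₀.T), d ≠ 0 → e ≠ 0 → Ext.Related M d e →
        (∃ᶠ N in atTop ⊓ 𝓟 S, |meanOf f Φ F d N - meanOf f Φ F₀ e N| < 1 / k) ∧
        ∀ c : ℝ, Tendsto (meanOf f Φ F₀ e) (atTop ⊓ 𝓟 S) (𝓝 c) →
          (∃ᶠ N in atTop ⊓ 𝓟 S, |meanOf f Φ F d N - c| < 1 / k) ∧
          ∀ x : ℝ, Tendsto (meanOf f Φ F d) (atTop ⊓ 𝓟 S) (𝓝 x) → |x - c| < 1 / k := by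
  have hne : (atTop ⊓ 𝓟 S).NeBot := by
    rw [← frequently_mem_iff_neBot]
    exact Nat.frequently_atTop_iff_infinite.2 hS
  obtain ⟨M, hM1, hM2, hM3, hM4, hA, hB⟩ := Pool.Agent.W529.ST.main_C f g Φ hΦ n k hk
    (atTop ⊓ 𝓟 S) inf_le_left
  have hMnf : NumberField M := NumberField.of_module_finite K M
  refine ⟨⟨M, hMnf⟩, hM2, hM4, ?_, ?_⟩
  · intro hodd F d hF hd hsq
    have := F.nf
    exact (hA hodd F.sub d hF hd hsq).1
  · intro F F₀ hF₀ hF d e hd he hr
    have := F.nf
    have := F₀.nf
    obtain ⟨h1, h2, h3⟩ := hB F.sub F₀.sub hF₀ hF d e hd he hr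
    exact ⟨h1, fun c hc => ⟨h2 c hc, fun x hx => h3 x c hx hc⟩⟩

end Pool.Agent.Results.MP_3da4c4_nt.OneFiniteExtension
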